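import Mathlib

/-!
Division of polynomials by polynomials with invertible leading coefficients.
-/

set_option autoImplicit false
set_option linter.unusedVariables false
set_option linter.unusedSectionVars false

universe u

namespace Pool.Agent.N98.RW

open MvPolynomial

section div

variable {E : Type u} [Field E] {n : ℕ}

/-- The coefficients lie in the subring. -/
def Ci (k : Subring E) (P : MvPolynomial (Fin n) E) : Prop := ∀ m, P.coeff m ∈ k

lemma Ci.add {k : Subring E} {P Q : MvPolynomial (Fin n) E} (h : Ci k P) (h' : Ci k Q) :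
    Ci k (P + Q) := fun m => by
  rw [coeff_add]
  exact k.add_mem (h m) (h' m)

lemma Ci.mul {k : Subring E} {P Q : MvPolynomial (Fin n) E} (h : Ci k P) (h' : Ci k Q) :
    Ci k (P * Q) := fun m => by
  classical
  rw [coeff_mul]
  exact k.sum_mem fun p _ => k.mul_mem (h _) (h' _)

lemma Ci.C {k : Subring E} {c : E} (h : c ∈ k) : Ci k (C c : MvPolynomial (Fin n) E) := fun m => by
  classical
  rw [coeff_C]
  split_ifs
  · exact h
  · exact k.zero_mem

lemma Ci.X (k : Subring E) (i : Fin n) : Ci k (X i : MvPolynomial (Fin n) E) := fun m => by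
  classical
  rw [coeff_X']
  split_ifs
  · exact k.one_mem
  · exact k.zero_mem

lemma Ci.pow {k : Subring E} {P : MvPolynomial (Fin n) E} (h : Ci k P) (e : ℕ) :
    Ci k (P ^ e) := by
  induction e with
  | zero =>
    rw [pow_zero, ← C_1]
    exact Ci.C k.one_mem
  | succ e ih => rw [pow_succ]; exact ih.mul h

/-- Lifting to the subring. -/
lemma Ci.lift {k : Subring E} {P : MvPolynomial (Fin n) E} (h : Ci k P) :
    ∃ P' : MvPolynomial (Fin n) k, map k.subtype P' = P := by
  refine ⟨∑ m ∈ P.support, monomial m ⟨P.coeff m, h m⟩, ?_⟩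
  rw [map_sum]
  conv_rhs => rw [P.as_sum]
  refine Finset.sum_congr rfl fun m _ => ?_
  rw [map_monomial]
  rfl

lemma Ci.of_map {k : Subring E} (P' : MvPolynomial (Fin n) k) : Ci k (map k.subtype P') :=
  fun m => by
  rw [coeff_map]
  exact (P'.coeff m).2

lemma map_inj {k : Subring E} : Function.Injective (map k.subtype : MvPolynomial (Fin n) k → _) :=
  map_injective _ Subtype.val_injective

lemma degree_map {k : Subring E} (m : MonomialOrder (Fin n)) (P : MvPolynomial (Fin n) k) :
    m.degree (map k.subtype P) = m.degree P := by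
  unfold MonomialOrder.degree
  rw [support_map_of_injective _ (f := k.subtype) Subtype.val_injective]

/-- Quotients by polynomials with invertible leading coefficient. -/
lemma ci_of_mul {k : Subring E} (m : MonomialOrder (Fin n)) {f u : MvPolynomial (Fin n) E}
    (hf : Ci k f) (hf0 : f ≠ 0) (hl : (m.leadingCoeff f)⁻¹ ∈ k) (h : Ci k (f * u)) : Ci k u := by
  obtain ⟨f', hf'⟩ := hf.lift
  obtain ⟨b', hb'⟩ := h.lift
  have hu : IsUnit (m.leadingCoeff f') := by
    have e1 : ((m.leadingCoeff f' : k) : E) = m.leadingCoeff f := by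
      rw [MonomialOrder.leadingCoeff, MonomialOrder.leadingCoeff, ← hf', degree_map, coeff_map]
      rfl
    refine IsUnit.of_mul_eq_one ⟨_, hl⟩ (Subtype.ext ?_)
    change ((m.leadingCoeff f' : k) : E) * (m.leadingCoeff f)⁻¹ = 1
    rw [e1]
    exact mul_inv_cancel₀ (MonomialOrder.leadingCoeff_ne_zero_iff.2 hf0)
  obtain ⟨g, r, e, -, h2⟩ := m.div_single hu b'
  have e1 : (u - map k.subtype g) * f = map k.subtype r := by
    have e2 := congrArg (map k.subtype) e
    rw [hb', map_add, map_mul, hf'] at e2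
    linear_combination e2
  by_cases hr : r = 0
  · rw [hr, map_zero] at e1
    have e3 : u = map k.subtype g := sub_eq_zero.1 ((mul_eq_zero.1 e1).resolve_right hf0)
    rw [e3]
    exact Ci.of_map g
  · exfalso
    have hne : u - map k.subtype g ≠ 0 := by
      intro h0
      rw [h0, zero_mul] at e1
      exact hr (map_inj (by rw [← e1, map_zero]))
    have h3 : m.degree (map k.subtype r) = m.degree (u - map k.subtype g) + m.degree f := by
      rw [← e1, m.degree_mul hne hf0]
    rw [degree_map] at h3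
    refine h2 _ (m.degree_mem_support hr) ?_
    rw [h3, ← hf', degree_map]
    exact le_add_self

/-- The elements with denominators `d ^ n`. -/
def dloc (k : Subring E) (d : E) (hd : d ∈ k) : Subring E where
  carrier := {z | ∃ n : ℕ, d ^ n * z ∈ k}
  mul_mem' := by
    rintro a b ⟨n, hn⟩ ⟨m, hm⟩
    refine ⟨n + m, ?_⟩
    have e : d ^ (n + m) * (a * b) = d ^ n * a * (d ^ m * b) := by ring
    rw [e]
    exact k.mul_mem hn hm
  one_mem' := ⟨0, by rw [pow_zero, one_mul]; exact k.one_mem⟩
  add_mem' := by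
    rintro a b ⟨n, hn⟩ ⟨m, hm⟩
    refine ⟨n + m, ?_⟩
    have e : d ^ (n + m) * (a + b) = d ^ m * (d ^ n * a) + d ^ n * (d ^ m * b) := by ring
    rw [e]
    exact k.add_mem (k.mul_mem (k.pow_mem hd _) hn) (k.mul_mem (k.pow_mem hd _) hm)
  zero_mem' := ⟨0, by rw [mul_zero]; exact k.zero_mem⟩
  neg_mem' := by
    rintro a ⟨n, hn⟩
    exact ⟨n, by rw [mul_neg]; exact k.neg_mem hn⟩

lemma le_dloc (k : Subring E) (d : E) (hd : d ∈ k) : k ≤ dloc k d hd := fun z hz =>
  ⟨0, by rw [pow_zero, one_mul]; exact hz⟩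

lemma ci_dloc {k : Subring E} {d : E} {hd : d ∈ k} {P : MvPolynomial (Fin n) E}
    (h : Ci (dloc k d hd) P) : ∃ m : ℕ, Ci k (P * C d ^ m) := by
  choose a ha using h
  refine ⟨P.support.sup a, fun m => ?_⟩
  rw [← C_pow, mul_comm, coeff_C_mul]
  by_cases hm : m ∈ P.support
  · obtain ⟨j, hj⟩ := Nat.exists_eq_add_of_le (Finset.le_sup (f := a) hm)
    rw [hj, add_comm, pow_add, mul_assoc]
    exact k.mul_mem (k.pow_mem hd _) (ha m)
  · rw [notMem_support_iff.1 hm, mul_zero]
    exact k.zero_mem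

/-- Division by powers of an irreducible polynomial. -/
theorem exists_div {k : Subring E} {d : E} (hd : d ∈ k) (hd0 : d ≠ 0)
    {f : MvPolynomial (Fin n) E} (hf : Irreducible f) (hfk : ∀ m, d * f.coeff m ∈ k)
    (hfk' : ∀ m, d * (f.coeff m)⁻¹ ∈ k) {P : MvPolynomial (Fin n) E} (hP : Ci k P) (hP0 : P ≠ 0) :
    ∃ (e m : ℕ) (c : MvPolynomial (Fin n) E), Ci k c ∧ ¬ f ∣ c ∧ P * C d ^ m = f ^ e * c := by
  obtain ⟨e, c, hc, hPc⟩ := WfDvdMonoid.max_power_factor hP0 hf
  have hf1 : Ci (dloc k d hd) f := fun m => ⟨1, by rw [pow_one]; exact hfk m⟩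
  have hl : (MonomialOrder.lex.leadingCoeff f)⁻¹ ∈ dloc k d hd := ⟨1, by
    rw [pow_one]; exact hfk' _⟩
  have key : ∀ (e : ℕ) (c : MvPolynomial (Fin n) E), Ci (dloc k d hd) (f ^ e * c) →
      Ci (dloc k d hd) c := by
    intro e
    induction e with
    | zero =>
      intro c h
      rwa [pow_zero, one_mul] at h
    | succ e ih =>
      intro c h
      rw [pow_succ', mul_assoc] at h
      exact ih c (ci_of_mul MonomialOrder.lex hf1 hf.ne_zero hl h)
  obtain ⟨m, hm⟩ := ci_dloc (key e c (by
    rw [← hPc]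
    exact fun m => le_dloc k d hd (hP m)))
  refine ⟨e, m, c * C d ^ m, hm, ?_, ?_⟩
  · intro h
    apply hc
    have hu : IsUnit (C d ^ m : MvPolynomial (Fin n) E) := (isUnit_iff_ne_zero.2 hd0).map
      (C : E →+* MvPolynomial (Fin n) E) |>.pow m
    exact (hu.dvd_mul_right).1 h
  · rw [hPc]
    ring

end div

end Pool.Agent.N98.RW
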